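import Pool.Agent.H30.T1.LATTK
import Pool.Agent.H43.T1.GDU
import Pool.Agent.H33.NFA.A

/-!
# NFA: LAG (the global lattice, from the local lattices)
-/

set_option autoImplicit false
set_option linter.unusedSectionVars false

namespace Pool.NFA

open Polynomial Matrix NumberField IsDedekindDomain Pool.HYP Pool.TOW Pool.AVS Pool.T1 Pool.NF
  Pool.T1.Latk Pool.T1.GDU43

namespace LAG70

section

variable {R : Type} [CommRing R] [IsDedekindDomain R] {K : Type} [Field K] [Algebra R K]
  [IsFractionRing R K] {P : HeightOneSpectrum R}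

lemma min_adj {n : ℕ} {M : Matrix (Fin n) (Fin n) K} (hM : MIn (RP K P) M) :
    MIn (RP K P) M.adjugate := by
  set M' : Matrix (Fin n) (Fin n) (RPs K P) := Matrix.of fun i j => ⟨M i j, hM i j⟩ with hM'
  have h1 : M = (RPs K P).subtype.mapMatrix M' := by
    ext i j
    simp [hM']
  intro i j
  rw [h1, ← RingHom.map_adjugate, RingHom.mapMatrix_apply, Matrix.map_apply]
  exact (M'.adjugate i j).2

end

end LAG70

open LAG70

/-- **LAG.** -/
theorem lag : LAGStmt := by
  classical
  intro R _ _ K _ _ _ n f α hf hn hc hL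
  -- outside the divisors of `d δ` the polynomial `α` is a unit
  obtain ⟨d, h₁, hd, hh₁⟩ := clear (R := R) α
  have hd0 : algebraMap R K d ≠ 0 := alg_ne hd
  have hc1 : IsCoprime (fk K h₁) (fk K f) := by
    rw [← hh₁]
    have : IsUnit (C (algebraMap R K d) : K[X]) := isUnit_C.2 hd0.isUnit
    exact (isCoprime_mul_unit_left_left this α (fk K f)).2 hc
  obtain ⟨a₁, b₁, δ, hδ, hab⟩ := clear2 hc1
  have hI : Ideal.span {d * δ} ≠ (0 : Ideal R) := by
    rw [Ideal.zero_eq_bot, Ne, Ideal.span_singleton_eq_bot]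
    exact mul_ne_zero hd hδ
  obtain ⟨S, hS⟩ : ∃ S : Finset (HeightOneSpectrum R), S = (Ideal.finite_factors hI).toFinset :=
    ⟨_, rfl⟩
  have hSD : ∀ P : HeightOneSpectrum R, P ∉ S → d * δ ∉ P.asIdeal := by
    intro P hPS hPD
    apply hPS
    rw [hS, Set.Finite.mem_toFinset]
    show P.asIdeal ∣ Ideal.span {d * δ}
    rw [Ideal.dvd_span_singleton]
    exact hPD
  choose aP haP using hL
  obtain ⟨b, hb⟩ : ∃ b : HeightOneSpectrum R → Matrix (Fin n) (Fin n) K,
      ∀ P, b P = if P ∈ S then aP P else 1 := ⟨fun P => if P ∈ S then aP P else 1, fun _ => rfl⟩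
  -- all primes
  have hall : ∀ P : HeightOneSpectrum R,
      GIn (RP K P) ((b P)ᵀ * gr 0 n (fk K f) α * b P) ∧
      MIn (RP K P) ((b P)ᵀ * gr 1 n (fk K f) α * b P) := by
    intro P
    by_cases hPS : P ∈ S
    · rw [hb, if_pos hPS]
      exact haP P
    · have hPD := hSD P hPS
      have hPd : d ∉ P.asIdeal := fun h => hPD (P.asIdeal.mul_mem_right δ h)
      have e1 : fk K (C d * h₁) = C (algebraMap R K d ^ 2) * α := by
        rw [fk, Polynomial.map_mul, Polynomial.map_C]
        have h2 : Polynomial.map (algebraMap R K) h₁ = fk K h₁ := rfl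
        rw [h2, ← hh₁, pow_two, C_mul]
        ring
      have e0 : C ((algebraMap R K d)⁻¹ ^ 2) * fk K (C d * h₁) = α := by
        rw [e1, ← mul_assoc, ← C_mul]
        have e2 : (algebraMap R K d)⁻¹ ^ 2 * algebraMap R K d ^ 2 = 1 := by field_simp
        rw [e2, C_1, one_mul]
      have hcp : IsCoprime (md P.asIdeal (C d * h₁)) (md P.asIdeal f) := by
        obtain ⟨v, i, hi, hv⟩ := P.isMaximal.exists_inv hPD
        refine ⟨md P.asIdeal (C v * a₁), md P.asIdeal (C v * C d * b₁), ?_⟩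
        have e2 : C v * a₁ * (C d * h₁) + C v * C d * b₁ * f = 1 - C i := by
          have e3 : C v * (C d * C δ) + C i = (1 : R[X]) := by
            rw [← C_mul, ← C_mul, ← C_add, hv, C_1]
          linear_combination (C v * C d) * hab + e3
        have e4 := congrArg (Polynomial.mapRingHom (Ideal.Quotient.mk P.asIdeal)) e2
        rw [map_add, map_mul _ (C v * a₁), map_mul _ (C v * C d * b₁), map_sub, map_one] at e4
        refine e4.trans ?_
        rw [Polynomial.coe_mapRingHom, Polynomial.map_C,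
          Ideal.Quotient.eq_zero_iff_mem.2 hi, C_0, sub_zero]
      obtain ⟨p, hp⟩ : ∃ p : R[X], p = C d * h₁ := ⟨_, rfl⟩
      rw [← hp] at e0 hcp
      have hdi : (algebraMap R K d)⁻¹ ∈ RP K P := rp_inv hPd
      have hgr : ∀ k : ℕ, gr k n (fk K f) α =
          ((algebraMap R K d)⁻¹ ^ 2) • (gr k n f p).map (algebraMap R K) := by
        intro k
        rw [← e0, gr_C_mul, gr_map _ hf]
      have hmin : ∀ k : ℕ, MIn (RP K P) (gr k n (fk K f) α) := by
        intro k i j
        rw [hgr, Matrix.smul_apply, smul_eq_mul, pow_two]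
        exact rp_mul (rp_mul hdi hdi) (rp_map (P := P) _ i j)
      rw [hb, if_neg hPS, Matrix.transpose_one, Matrix.one_mul, Matrix.mul_one, Matrix.one_mul,
        Matrix.mul_one]
      refine ⟨⟨hmin 0, ?_⟩, hmin 1⟩
      have hdet : (gr 0 n f p).det ∉ P.asIdeal := (lock R K P n f p hf hn hcp).1
      have hne : algebraMap R K (gr 0 n f p).det ≠ 0 := alg_ne fun h => hdet (by
        rw [h]
        exact P.asIdeal.zero_mem)
      have e5 : (gr 0 n (fk K f) α).det =
          ((algebraMap R K d)⁻¹ ^ 2) ^ n * algebraMap R K (gr 0 n f p).det := by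
        rw [hgr, Matrix.det_smul, Fintype.card_fin, RingHom.map_det]
        rfl
      have hpow : ∀ (x : K) (k : ℕ), x ∈ RP K P → x ^ k ∈ RP K P := by
        intro x k hx
        induction k with
        | zero => rw [pow_zero]; exact rp_one
        | succ k ih => rw [pow_succ]; exact rp_mul ih hx
      rw [e5]
      refine ⟨mul_ne_zero (pow_ne_zero _ (pow_ne_zero _ (inv_ne_zero hd0))) hne,
        rp_mul (hpow _ _ (hpow _ _ hdi)) (rp_alg _), ?_⟩
      rw [mul_inv, ← inv_pow, ← inv_pow, inv_inv]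
      exact rp_mul (hpow _ _ (hpow _ _ (rp_alg _))) (rp_inv hdet)
  have hbd : ∀ P, (b P).det ≠ 0 := by
    intro P h
    have h1 := (hall P).1.2.1
    rw [Matrix.det_mul, h, mul_zero] at h1
    exact h1 rfl
  obtain ⟨Λ, hΛ, hE, hloc⟩ := gluk R K n S b hbd (fun P hP => by rw [hb, if_neg hP])
  -- the form in local coordinates
  have hbb : ∀ (P : HeightOneSpectrum R) (x : Fin n → K), b P *ᵥ ((b P)⁻¹ *ᵥ x) = x := by
    intro P x
    rw [Matrix.mulVec_mulVec, Matrix.mul_nonsing_inv _ (isUnit_iff_ne_zero.2 (hbd P)),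
      Matrix.one_mulVec]
  have hform : ∀ (P : HeightOneSpectrum R) (M : Matrix (Fin n) (Fin n) K) (x y : Fin n → K),
      x ⬝ᵥ (M *ᵥ y) = ((b P)⁻¹ *ᵥ x) ⬝ᵥ (((b P)ᵀ * M * b P) *ᵥ ((b P)⁻¹ *ᵥ y)) := by
    intro P M x y
    rw [← Matrix.mulVec_mulVec, hbb, ← Matrix.mulVec_mulVec, Matrix.dotProduct_mulVec _ (b P)ᵀ,
      Matrix.vecMul_transpose, hbb]
  have hint : ∀ (P : HeightOneSpectrum R) (M : Matrix (Fin n) (Fin n) K)
      (u v : Fin n → K), MIn (RP K P) M → (∀ i, u i ∈ RP K P) →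
      (∀ i, v i ∈ RP K P) → u ⬝ᵥ (M *ᵥ v) ∈ RP K P := by
    intro P M u v hM hu hv
    exact rp_sum _ _ fun i _ => rp_mul (hu i) (rp_mulVec hM hv i)
  refine ⟨Λ, hE, ?_, ?_⟩
  · intro y
    constructor
    · intro hy x hx
      apply rp_all
      intro P
      rw [hform P]
      exact hint P _ _ _ (hall P).1.1 ((hΛ x).1 hx P) ((hΛ y).1 hy P)
    · intro hy
      rw [hΛ]
      intro P
      obtain ⟨M, hM⟩ : ∃ M : Matrix (Fin n) (Fin n) K,
        M = (b P)ᵀ * gr 0 n (fk K f) α * b P := ⟨_, rfl⟩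
      have hMG : GIn (RP K P) M := by
        rw [hM]
        exact (hall P).1
      obtain ⟨v, hv⟩ : ∃ v, v = (b P)⁻¹ *ᵥ y := ⟨_, rfl⟩
      rw [← hv]
      have h1 : ∀ i, (M *ᵥ v) i ∈ RP K P := by
        intro i
        obtain ⟨x, hx⟩ : ∃ x : Fin n → K, x = b P *ᵥ (Pi.single i 1) := ⟨_, rfl⟩
        have hbx : (b P)⁻¹ *ᵥ x = Pi.single i 1 := by
          rw [hx, Matrix.mulVec_mulVec, Matrix.nonsing_inv_mul _ (isUnit_iff_ne_zero.2 (hbd P)),
            Matrix.one_mulVec]
        obtain ⟨m, hm, hmx⟩ := hloc P x (fun j => by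
          rw [hbx]
          by_cases hij : j = i
          · rw [hij, Pi.single_eq_same]
            exact rp_one
          · rw [Pi.single_eq_of_ne hij]
            exact rp_zero)
        obtain ⟨a, ha⟩ := hy (m • x) hmx
        have h2 : x ⬝ᵥ (gr 0 n (fk K f) α *ᵥ y) ∈ RP K P := by
          refine ⟨m, hm, a, ?_⟩
          rw [ha, smul_dotProduct, Algebra.smul_def]
        rw [hform P, ← hM, hbx, ← hv, single_dotProduct, one_mul] at h2
        exact h2
      have h2 : v = M.det⁻¹ • (M.adjugate *ᵥ (M *ᵥ v)) := by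
        rw [Matrix.mulVec_mulVec, Matrix.adjugate_mul, Matrix.smul_mulVec, Matrix.one_mulVec,
          smul_smul, inv_mul_cancel₀ hMG.2.1, one_smul]
      intro i
      rw [h2]
      exact rp_mul hMG.2.2.2 (rp_mulVec (min_adj hMG.1) h1 i)
  · intro x hx y hy
    apply rp_all
    intro P
    rw [hform P]
    exact hint P _ _ _ (hall P).2 ((hΛ x).1 hx P) ((hΛ y).1 hy P)

end Pool.NFA
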